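import Mathlib

/-!
# Binary codes closed under a Boolean operation

Codes closed under the coordinatewise product: the size is at most `2 ^ (n / d)`.
-/

namespace Q123.CC

open Finset

/-- The code `C` (binary words of length `n`) is closed under the `k`-ary Boolean operation `f`,
applied coordinatewise. -/
def ClosedUnder {n k : ℕ} (f : (Fin k → ZMod 2) → ZMod 2) (C : Finset (Fin n → ZMod 2)) : Prop :=
  ∀ w : Fin k → Fin n → ZMod 2, (∀ i, w i ∈ C) → (fun j => f (fun i => w i j)) ∈ C

/-- Distinct words of `C` differ in at least `d` coordinates. -/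
def MinDist {n : ℕ} (d : ℕ) (C : Finset (Fin n → ZMod 2)) : Prop :=
  ∀ x ∈ C, ∀ y ∈ C, x ≠ y → d ≤ hammingDist x y

/-- `f` is affine: a constant plus a sum of variables over the field with two elements. -/
def IsAffine {k : ℕ} (f : (Fin k → ZMod 2) → ZMod 2) : Prop :=
  ∃ (c : ZMod 2) (s : Finset (Fin k)), ∀ x, f x = c + ∑ i ∈ s, x i

/-- Set families closed under intersection with large differences. -/
theorem card_le_of_inter {V : Type*} [DecidableEq V] {d : ℕ} (hd : 1 ≤ d) :
    ∀ (m : ℕ) (G : Finset V) (F : Finset (Finset V)), G.card < (m + 1) * d →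
      (∀ X ∈ F, X ⊆ G) → (∀ X ∈ F, ∀ Y ∈ F, X ∩ Y ∈ F) →
      (∀ X ∈ F, ∀ Y ∈ F, X ≠ Y → d ≤ ((X \ Y) ∪ (Y \ X)).card) → F.card ≤ 2 ^ m := by
  intro m
  induction m with
  | zero =>
    intro G F hG hsub _ hdist
    rw [pow_zero, card_le_one]
    intro X hX Y hY
    by_contra hne
    have h1 := hdist X hX Y hY hne
    have h2 : ((X \ Y) ∪ (Y \ X)).card ≤ G.card := by
      apply card_le_card
      exact union_subset (sdiff_subset.trans (hsub X hX)) (sdiff_subset.trans (hsub Y hY))
    omega
  | succ m ih =>
    intro G F hG hsub hinter hdist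
    by_cases hF : F.card ≤ 1
    · exact hF.trans (Nat.one_le_two_pow)
    push Not at hF
    -- the bottom element
    have hFne : F.Nonempty := card_pos.mp (by omega)
    obtain ⟨M, hM, hMmin⟩ := exists_min_image F card hFne
    have hMsub : ∀ Y ∈ F, M ⊆ Y := by
      intro Y hY
      have h1 := hMmin _ (hinter M hM Y hY)
      have h2 : M ∩ Y = M := eq_of_subset_of_card_le inter_subset_left h1
      rw [← h2]
      exact inter_subset_right
    have hFM : (F.erase M).Nonempty := by
      apply card_pos.mp
      rw [card_erase_of_mem hM]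
      omega
    obtain ⟨A, hA, hAmin⟩ := exists_min_image (F.erase M) card hFM
    rw [mem_erase] at hA
    have hdich : ∀ Y ∈ F, A ∩ Y = M ∨ A ⊆ Y := by
      intro Y hY
      by_cases h : A ∩ Y = M
      · exact Or.inl h
      · right
        have h1 := hAmin (A ∩ Y) (mem_erase.mpr ⟨h, hinter A hA.2 Y hY⟩)
        have h2 : A ∩ Y = A := eq_of_subset_of_card_le inter_subset_left h1
        rw [← h2]
        exact inter_subset_right
    have hMA : M ⊆ A := hMsub A hA.2
    have hP : d ≤ (A \ M).card := by
      have h1 := hdist A hA.2 M hM hA.1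
      have h2 : (A \ M) ∪ (M \ A) = A \ M := by
        rw [sdiff_eq_empty_iff_subset.mpr hMA, union_empty]
      rwa [h2] at h1
    have hG' : (G \ (A \ M)).card < (m + 1) * d := by
      have h1 : A \ M ⊆ G := sdiff_subset.trans (hsub A hA.2)
      rw [card_sdiff_of_subset h1]
      have h2 : (m + 1 + 1) * d = (m + 1) * d + d := by ring
      have h3 : 0 < (m + 1) * d := by positivity
      omega
    -- the two halves
    have h0 : (F.filter fun Y => A ∩ Y = M).card ≤ 2 ^ m := by
      apply ih (G \ (A \ M)) _ hG'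
      · intro X hX
        rw [mem_filter] at hX
        intro a ha
        rw [mem_sdiff, mem_sdiff]
        refine ⟨hsub X hX.1 ha, fun h => h.2 ?_⟩
        rw [← hX.2]
        exact mem_inter.mpr ⟨h.1, ha⟩
      · intro X hX Y hY
        rw [mem_filter] at hX hY ⊢
        refine ⟨hinter X hX.1 Y hY.1, ?_⟩
        rw [← inter_assoc, hX.2]
        exact inter_eq_left.mpr (hMsub Y hY.1)
      · intro X hX Y hY hne
        rw [mem_filter] at hX hY
        exact hdist X hX.1 Y hY.1 hne
    have hcontain : ∀ X ∈ F.filter fun Y => ¬ A ∩ Y = M, A ⊆ X ∧ X ∈ F := by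
      intro X hX
      rw [mem_filter] at hX
      exact ⟨(hdich X hX.1).resolve_left hX.2, hX.1⟩
    have hre : ∀ X, A ⊆ X → (X \ (A \ M)) ∪ (A \ M) = X := by
      intro X hX
      exact sdiff_union_of_subset (sdiff_subset.trans hX)
    have hAM : A ≠ M := hA.1
    have h1 : (F.filter fun Y => ¬ A ∩ Y = M).card ≤ 2 ^ m := by
      have hinj : Set.InjOn (fun X : Finset V => X \ (A \ M))
          ((F.filter fun Y => ¬ A ∩ Y = M : Finset (Finset V)) : Set (Finset V)) := by
        intro X hX Y hY hXY
        have hX' := (hcontain X (mem_coe.mp hX)).1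
        have hY' := (hcontain Y (mem_coe.mp hY)).1
        have hXY' : X \ (A \ M) = Y \ (A \ M) := hXY
        rw [← hre X hX', ← hre Y hY', hXY']
      rw [← card_image_of_injOn hinj]
      apply ih (G \ (A \ M)) _ hG'
      · intro X hX
        rw [mem_image] at hX
        obtain ⟨Y, hY, rfl⟩ := hX
        exact sdiff_subset_sdiff (hsub Y (hcontain Y hY).2) (subset_refl _)
      · intro X hX Y hY
        rw [mem_image] at hX hY ⊢
        obtain ⟨X', hX', rfl⟩ := hX
        obtain ⟨Y', hY', rfl⟩ := hY
        have hx := hcontain X' hX'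
        have hy := hcontain Y' hY'
        refine ⟨X' ∩ Y', ?_, ?_⟩
        · rw [mem_filter]
          refine ⟨hinter X' hx.2 Y' hy.2, ?_⟩
          rw [inter_eq_left.mpr (subset_inter hx.1 hy.1)]
          exact hAM
        · ext a
          simp only [mem_sdiff, mem_inter]
          tauto
      · intro X hX Y hY hne
        rw [mem_image] at hX hY
        obtain ⟨X', hX', rfl⟩ := hX
        obtain ⟨Y', hY', rfl⟩ := hY
        have hx := hcontain X' hX'
        have hy := hcontain Y' hY'
        have hne' : X' ≠ Y' := fun h => hne (by rw [h])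
        have h2 := hdist X' hx.2 Y' hy.2 hne'
        have h3 : (X' \ (A \ M)) \ (Y' \ (A \ M)) ∪ (Y' \ (A \ M)) \ (X' \ (A \ M))
            = (X' \ Y') ∪ (Y' \ X') := by
          ext a
          have hxa : a ∈ A → a ∈ X' := fun h => hx.1 h
          have hya : a ∈ A → a ∈ Y' := fun h => hy.1 h
          simp only [mem_union, mem_sdiff]
          tauto
        rw [h3]
        exact h2
    have hsum := card_filter_add_card_filter_not (s := F) (fun Y => A ∩ Y = M)
    rw [pow_succ]
    omega

/-- The support of a word. -/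
def supp {n : ℕ} (x : Fin n → ZMod 2) : Finset (Fin n) := univ.filter fun j => x j = 1

theorem zmod2_cases (a : ZMod 2) : a = 0 ∨ a = 1 := by
  revert a
  decide

theorem supp_injective {n : ℕ} : Function.Injective (supp (n := n)) := by
  intro x y h
  funext j
  have h1 : j ∈ supp x ↔ j ∈ supp y := by rw [h]
  simp only [supp, mem_filter, mem_univ, true_and] at h1
  rcases zmod2_cases (x j) with hx | hx <;> rcases zmod2_cases (y j) with hy | hy
  · rw [hx, hy]
  · exact absurd (h1.mpr hy) (by rw [hx]; decide)
  · exact absurd (h1.mp hx) (by rw [hy]; decide)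
  · rw [hx, hy]

theorem card_supp_symm {n : ℕ} (x y : Fin n → ZMod 2) :
    ((supp x \ supp y) ∪ (supp y \ supp x)).card = hammingDist x y := by
  unfold hammingDist
  congr 1
  ext j
  simp only [supp, mem_union, mem_sdiff, mem_filter, mem_univ, true_and]
  rcases zmod2_cases (x j) with hx | hx <;> rcases zmod2_cases (y j) with hy | hy <;>
    rw [hx, hy] <;> decide

/-- A code closed under the coordinatewise product. -/
theorem card_le_of_mul {n d : ℕ} (hd : 1 ≤ d) (C : Finset (Fin n → ZMod 2))
    (hC : ∀ x ∈ C, ∀ y ∈ C, x * y ∈ C) (hdist : MinDist d C) : C.card ≤ 2 ^ (n / d) := by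
  classical
  rw [← card_image_of_injective C supp_injective]
  apply card_le_of_inter hd (n / d) univ
  · rw [card_univ, Fintype.card_fin, mul_comm]
    exact Nat.lt_mul_div_succ n (by omega)
  · intro X _
    exact subset_univ _
  · intro X hX Y hY
    rw [mem_image] at hX hY ⊢
    obtain ⟨x, hx, rfl⟩ := hX
    obtain ⟨y, hy, rfl⟩ := hY
    refine ⟨x * y, hC x hx y hy, ?_⟩
    ext j
    simp only [supp, mem_inter, mem_filter, mem_univ, true_and, Pi.mul_apply]
    rcases zmod2_cases (x j) with hx | hx <;> rcases zmod2_cases (y j) with hy | hy <;>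
      rw [hx, hy] <;> decide
  · intro X hX Y hY hne
    rw [mem_image] at hX hY
    obtain ⟨x, hx, rfl⟩ := hX
    obtain ⟨y, hy, rfl⟩ := hY
    rw [card_supp_symm]
    exact hdist x hx y hy (fun h => hne (by rw [h]))

theorem hammingDist_add {n : ℕ} (x y c : Fin n → ZMod 2) :
    hammingDist (x + c) (y + c) = hammingDist x y := by
  unfold hammingDist
  congr 1
  ext j
  simp

/-- Translating a code. -/
theorem card_le_of_translate {n d : ℕ} (hd : 1 ≤ d) (C : Finset (Fin n → ZMod 2))
    (c : Fin n → ZMod 2)
    (hC : ∀ x ∈ C, ∀ y ∈ C, (x + c) * (y + c) + c ∈ C) (hdist : MinDist d C) :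
    C.card ≤ 2 ^ (n / d) := by
  classical
  have hinj : Function.Injective (fun x : Fin n → ZMod 2 => x + c) := fun x y h =>
    add_right_cancel h
  rw [← card_image_of_injective C hinj]
  have hcc : c + c = 0 := by
    funext j
    exact CharTwo.add_self_eq_zero _
  apply card_le_of_mul hd
  · intro X hX Y hY
    rw [mem_image] at hX hY ⊢
    obtain ⟨x, hx, rfl⟩ := hX
    obtain ⟨y, hy, rfl⟩ := hY
    exact ⟨_, hC x hx y hy, by rw [add_assoc, hcc, add_zero]⟩
  · intro X hX Y hY hne
    rw [mem_image] at hX hY
    obtain ⟨x, hx, rfl⟩ := hX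
    obtain ⟨y, hy, rfl⟩ := hY
    rw [hammingDist_add]
    exact hdist x hx y hy (fun h => hne (by rw [h]))

/-- The Boolean functions `x y`, `x + y + x y`, `x y + y z + z x`. -/
theorem card_le_of_three {n d : ℕ} (hd : 1 ≤ d) (C : Finset (Fin n → ZMod 2))
    (hC : (∀ x ∈ C, ∀ y ∈ C, x * y ∈ C) ∨ (∀ x ∈ C, ∀ y ∈ C, x + y + x * y ∈ C) ∨
      (∀ x ∈ C, ∀ y ∈ C, ∀ z ∈ C, x * y + y * z + z * x ∈ C))
    (hdist : MinDist d C) : C.card ≤ 2 ^ (n / d) := by
  rcases hC with h | h | h
  · exact card_le_of_mul hd C h hdist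
  · apply card_le_of_translate hd C 1 _ hdist
    intro x hx y hy
    have e : (x + 1) * (y + 1) + 1 = x + y + x * y := by
      funext j
      simp only [Pi.add_apply, Pi.mul_apply, Pi.one_apply]
      rcases zmod2_cases (x j) with hx | hx <;> rcases zmod2_cases (y j) with hy | hy <;>
        rw [hx, hy] <;> decide
    rw [e]
    exact h x hx y hy
  · rcases C.eq_empty_or_nonempty with h0 | ⟨c, hc⟩
    · rw [h0]
      simp
    apply card_le_of_translate hd C c _ hdist
    intro x hx y hy
    have e : (x + c) * (y + c) + c = x * y + y * c + c * x := by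
      funext j
      simp only [Pi.add_apply, Pi.mul_apply]
      rcases zmod2_cases (x j) with hx | hx <;> rcases zmod2_cases (y j) with hy | hy <;>
        rcases zmod2_cases (c j) with hc | hc <;> rw [hx, hy, hc] <;> decide
    rw [e]
    exact h x hx y hy c hc

end Q123.CC
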