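import Pool.Agent.Q152.CC.Stm

/-!
Project CC (helper152), job BET: a non-trivial value of the symbol (Chinese remainder theorem).
-/

set_option autoImplicit false

namespace Pool.Agent.Q123.CC

open Pool.Agent.Y692.QS Pool.Agent.Q152.CC
open Pool.Agent.Q255.CU (fc m3)

noncomputable section

theorem nr_congr {n : ℤ} {α β : Ei} (h : (n : Ei) ∣ α - β) : n ∣ nr α - nr β := by
  rw [← int_dvd_int]
  push_cast
  rw [← mul_star, ← mul_star]
  have e : α * star α - β * star β = (α - β) * star α + β * (star (α - β)) := by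
    rw [star_sub]; ring
  rw [e]
  refine dvd_add (Dvd.dvd.mul_right h _) (Dvd.dvd.mul_left ?_ _)
  obtain ⟨c, hc⟩ := h
  refine ⟨star c, ?_⟩
  rw [hc, star_mul, mul_comm]
  congr 1
  ext
  · rw [star_re, QuadraticAlgebra.re_intCast, QuadraticAlgebra.im_intCast, sub_zero]
  · rw [star_im, QuadraticAlgebra.im_intCast, neg_zero]

theorem kp_three (α : Ei) : kp 3 α = k3 α := by
  unfold kp
  rw [dif_neg (by simp), if_pos rfl]

theorem kp_prime {q : ℕ} (hq : Fact q.Prime) (h3 : q ≠ 3) (α : Ei) : kp q α = kq q h3 α := by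
  unfold kp
  rw [dif_pos ⟨hq.out, h3⟩]

theorem nr_three {α : Ei} (h : (3 : Ei) ∣ α - 1) : IsCoprime (nr α) (3 : ℤ) := by
  have h1 : (((3 : ℤ) : Ei)) ∣ α - 1 := by exact_mod_cast h
  obtain ⟨k, hk⟩ := nr_congr h1
  rw [nr_one] at hk
  exact ⟨1, -k, by linarith⟩

/-- the symbol of the prime `q` depends on `α` modulo `q` (`27` if `q = 3`) -/
theorem kp_congr {q : ℕ} (hq : q.Prime) {m : ℤ} (hm : (if q = 3 then 27 else (q : ℤ)) ∣ m)
    {α β : Ei} (hα : (3 : Ei) ∣ α - 1) (hβ : (3 : Ei) ∣ β - 1) (h : (m : Ei) ∣ α - β) :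
    kp q α = kp q β := by
  have h' : (((if q = 3 then 27 else (q : ℤ)) : ℤ) : Ei) ∣ α - β := dvd_trans (int_dvd_int.2 hm) h
  by_cases h3 : q = 3
  · subst h3
    rw [if_pos rfl] at h'
    rw [kp_three, kp_three]
    exact Kap.three.per α β (nr_three hα) (nr_three hβ) hα hβ (by exact_mod_cast h')
  · rw [if_neg h3] at h'
    have hF : Fact q.Prime := ⟨hq⟩
    rw [kp_prime hF h3, kp_prime hF h3]
    unfold kq
    rw [KK_per q h3 h']

theorem kp_one {q : ℕ} (hq : q.Prime) : kp q 1 = 1 := by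
  by_cases h3 : q = 3
  · subst h3
    rw [kp_three]
    decide
  · have hF : Fact q.Prime := ⟨hq⟩
    rw [kp_prime hF h3]
    unfold kq
    have h1 : KK q h3 1 = 1 := by
      unfold KK
      rw [nr_one]
      simp
    rw [h1, cu_one]

theorem kp_cube {q : ℕ} (hq : q.Prime) {α : Ei} (hα : (3 : Ei) ∣ α - 1)
    (hc : IsCoprime (nr α) (q : ℤ)) : kp q α ^ 3 = 1 := by
  by_cases h3 : q = 3
  · subst h3
    rw [kp_three]
    exact Kap.three.cube α (nr_three hα) hα
  · have hF : Fact q.Prime := ⟨hq⟩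
    rw [kp_prime hF h3]
    exact (Kap.prime q h3).cube α hc hα

theorem kn_single {q n : ℕ} {β : Ei}
    (h : ∀ l ∈ n.primeFactors, l ≠ q → kp l β = 1) : kn n β = kp q β ^ n.factorization q := by
  unfold kn
  rw [Finset.prod_eq_single q]
  · intro l hl hlq
    rw [h l hl hlq, one_pow]
  · intro hq
    rw [← Nat.support_factorization, Finsupp.notMem_support_iff] at hq
    rw [hq, pow_zero]

theorem bet (ntp : S_NTP) (_kap : S_KAP) : S_BET := by
  intro A B hA hB hne
  -- the prime
  obtain ⟨q, hq⟩ : ∃ q, fc A q ≠ fc B q := by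
    by_contra h
    push Not at h
    exact hne (Finsupp.ext h)
  have hfc : ∀ n, fc n q = ((n.factorization q : ℕ) : ZMod 3) := fun n => rfl
  rw [hfc, hfc] at hq
  have hqp : q.Prime := by
    by_contra h
    apply hq
    rw [Nat.factorization_eq_zero_of_not_prime _ h, Nat.factorization_eq_zero_of_not_prime _ h]
  obtain ⟨γ, hγc, hγ3, hγ1⟩ := ntp q hqp
  have hAB : A * B ≠ 0 := Nat.mul_ne_zero (by omega) (by omega)
  set D : ℕ := ordCompl[q] (A * B) with hD
  have hDq : Nat.Coprime q D := Nat.coprime_ordCompl hqp hAB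
  have hlD : ∀ l : ℕ, l.Prime → l ≠ q → l ∣ A * B → l ∣ D := by
    intro l hl hlq hlAB
    have h1 : ordProj[q] (A * B) * D = A * B := Nat.ordProj_mul_ordCompl_eq_self _ _
    rw [← h1] at hlAB
    rcases (Nat.Prime.dvd_mul hl).1 hlAB with h | h
    · exact absurd ((Nat.prime_dvd_prime_iff_eq hl hqp).1 (hl.dvd_of_dvd_pow h)) hlq
    · exact h
  -- the moduli
  obtain ⟨E, m, hE, hm, hcop⟩ : ∃ E m : ℤ, (∀ l : ℕ, l.Prime → l ≠ q → l ∣ A * B →
      (if l = 3 then 27 else (l : ℤ)) ∣ E) ∧ (if q = 3 then 27 else (q : ℤ)) = m ∧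
      IsCoprime E m := by
    by_cases h3 : q = 3
    · refine ⟨D, 27, ?_, by rw [if_pos h3], ?_⟩
      · intro l hl hlq hlAB
        rw [if_neg (by rw [← h3]; exact hlq)]
        exact_mod_cast hlD l hl hlq hlAB
      · have h1 : Nat.Coprime D 27 := by
          have : (27 : ℕ) = 3 ^ 3 := by norm_num
          rw [this]
          apply Nat.Coprime.pow_right
          rw [← h3]
          exact hDq.symm
        exact_mod_cast Nat.isCoprime_iff_coprime.2 h1
    · refine ⟨27 * D, q, ?_, by rw [if_neg h3], ?_⟩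
      · intro l hl hlq hlAB
        split_ifs with hl3
        · exact dvd_mul_right _ _
        · exact Dvd.dvd.mul_left (by exact_mod_cast hlD l hl hlq hlAB) _
      · have h1 : Nat.Coprime (27 * D) q := by
          apply Nat.Coprime.mul_left
          · have : (27 : ℕ) = 3 ^ 3 := by norm_num
            rw [this]
            exact Nat.Coprime.pow_left _ ((Nat.coprime_primes Nat.prime_three hqp).2 (Ne.symm h3))
          · exact hDq.symm
        exact_mod_cast Nat.isCoprime_iff_coprime.2 h1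
  obtain ⟨u, v, huv⟩ := hcop
  -- `u * E + v * m = 1`
  set β : Ei := 1 + ((u * E : ℤ) : Ei) * (γ - 1) with hβ
  have hβγ : (m : Ei) ∣ β - γ := by
    refine ⟨-((v : ℤ) : Ei) * (γ - 1), ?_⟩
    have h1 : ((u * E : ℤ) : Ei) = 1 - ((v : ℤ) : Ei) * ((m : ℤ) : Ei) := by
      have : u * E = 1 - v * m := by linarith
      rw [this]
      push_cast
      ring
    rw [hβ, h1]
    ring
  have hβ1 : (E : Ei) ∣ β - 1 := by
    refine ⟨((u : ℤ) : Ei) * (γ - 1), ?_⟩
    rw [hβ]
    push_cast
    ring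
  have hβ3 : (3 : Ei) ∣ β - 1 := by
    have : β - 1 = ((u * E : ℤ) : Ei) * (γ - 1) := by rw [hβ]; ring
    rw [this]
    exact Dvd.dvd.mul_left hγ3 _
  have h13 : (3 : Ei) ∣ 1 - 1 := by rw [sub_self]; exact dvd_zero _
  have hkq : kp q β = kp q γ := kp_congr hqp (by rw [hm]) hβ3 hγ3 hβγ
  have hkl : ∀ l : ℕ, l.Prime → l ≠ q → l ∣ A * B → kp l β = 1 := by
    intro l hl hlq hlAB
    rw [kp_congr hl (hE l hl hlq hlAB) hβ3 h13 hβ1, kp_one hl]
  refine ⟨β, hβ3, ?_, ?_⟩
  · -- the norm
    rw [Int.isCoprime_iff_gcd_eq_one]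
    by_contra hg
    obtain ⟨l, hl, hlg⟩ := Nat.exists_prime_and_dvd hg
    have h1 : (l : ℤ) ∣ nr β := dvd_trans (by exact_mod_cast hlg) (Int.gcd_dvd_left _ _)
    have h2 : l ∣ A * B := by
      have : (l : ℤ) ∣ ((A * B : ℕ) : ℤ) := dvd_trans (by exact_mod_cast hlg) (Int.gcd_dvd_right _ _)
      exact_mod_cast this
    by_cases hlq : l = q
    · subst hlq
      have h3 : (l : ℤ) ∣ m := by
        rw [← hm]
        split_ifs with h
        · rw [h]; norm_num
        · exact dvd_rfl
      have h4 : (l : ℤ) ∣ nr β - nr γ := dvd_trans h3 (nr_congr hβγ)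
      have h5 : (l : ℤ) ∣ nr γ := by
        have := dvd_sub h1 h4
        rwa [sub_sub_cancel] at this
      have h6 := hγc.symm
      rw [Prime.coprime_iff_not_dvd (Nat.prime_iff_prime_int.1 hl)] at h6
      exact h6 h5
    · have h3 : (l : ℤ) ∣ E := by
        refine dvd_trans ?_ (hE l hl hlq h2)
        split_ifs with h
        · rw [h]; norm_num
        · exact dvd_rfl
      have h4 : (l : ℤ) ∣ nr β - nr 1 := dvd_trans h3 (nr_congr hβ1)
      rw [nr_one] at h4
      have h5 : (l : ℤ) ∣ 1 := by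
        have := dvd_sub h1 h4
        rwa [sub_sub_cancel] at this
      exact (Nat.prime_iff_prime_int.1 hl).not_dvd_one h5
  · -- the value
    have hkA : kn A β = kp q γ ^ A.factorization q := by
      rw [kn_single (q := q) (fun l hl hlq => hkl l (Nat.prime_of_mem_primeFactors hl) hlq
        (Dvd.dvd.mul_right (Nat.dvd_of_mem_primeFactors hl) _)), hkq]
    have hkB : kn B β = kp q γ ^ B.factorization q := by
      rw [kn_single (q := q) (fun l hl hlq => hkl l (Nat.prime_of_mem_primeFactors hl) hlq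
        (Dvd.dvd.mul_left (Nat.dvd_of_mem_primeFactors hl) _)), hkq]
    have hζ3 : kp q γ ^ 3 = 1 := kp_cube hqp hγ3 hγc
    rw [hkA, hkB]
    set a := A.factorization q with ha
    set b := B.factorization q with hb
    have hab : a % 3 ≠ b % 3 := by
      intro h
      apply hq
      exact (ZMod.natCast_eq_natCast_iff' a b 3).2 h
    rw [pow_eq_pow_mod a hζ3, pow_eq_pow_mod b hζ3]
    have ha3 : a % 3 < 3 := Nat.mod_lt _ (by norm_num)
    have hb3 : b % 3 < 3 := Nat.mod_lt _ (by norm_num)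
    generalize a % 3 = x at hab ha3
    generalize b % 3 = y at hab hb3
    rcases cube_cases hζ3 with h | h | h
    · exact absurd h hγ1
    · rw [h]
      interval_cases x <;> interval_cases y <;> first | exact absurd rfl hab | decide
    · rw [h]
      interval_cases x <;> interval_cases y <;> first | exact absurd rfl hab | decide

end

end Pool.Agent.Q123.CC
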