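import Pool.Agent.Q152.CC.Stm

/-!
Project CC (helper152), job CHP: the cubic characters modulo a prime.
-/

set_option autoImplicit false

namespace Pool.Agent.Q123.CC

open Pool.Agent.Y692.QS Pool.Agent.Q152.CC

noncomputable section

theorem chp (pix : S_PIX) (kap : S_KAP) : S_CHP := by
  intro p hp χ hχ3 hχ1
  have : Fact p.Prime := ⟨hp⟩
  have : NeZero p := ⟨hp.ne_zero⟩
  have hcube : ∀ u : (ZMod p)ˣ, χ (u : ZMod p) ^ 3 = 1 := by
    intro u
    rw [← MulChar.pow_apply_coe, hχ3, MulChar.one_apply_coe]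
  -- `3` divides `p - 1`
  have h3 : 3 ∣ p - 1 := by
    by_contra hnd
    apply hχ1
    refine MulChar.ext fun u => ?_
    rw [MulChar.one_apply_coe]
    have h1 : χ (u : ZMod p) ^ (p - 1) = 1 := by
      rw [← map_pow, ← Units.val_pow_eq_pow_val, ZMod.units_pow_card_sub_one_eq_one p u,
        Units.val_one, map_one]
    have h2 : (3 : ℕ).Coprime (p - 1) := (Nat.Prime.coprime_iff_not_dvd Nat.prime_three).2 hnd
    have h4 : orderOf (χ (u : ZMod p)) ∣ Nat.gcd 3 (p - 1) :=
      Nat.dvd_gcd (orderOf_dvd_of_pow_eq_one (hcube u)) (orderOf_dvd_of_pow_eq_one h1)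
    rw [h2.gcd_eq_one, Nat.dvd_one, orderOf_eq_one_iff] at h4
    exact h4
  have hp2 := hp.two_le
  have hp1 : p % 3 = 1 := by omega
  have hp3 : p ≠ 3 := by rintro rfl; omega
  obtain ⟨π, hπ⟩ := pix p hp hp1
  have hn3 : ¬ (3 : ℤ) ∣ nr π := by
    rw [hπ]
    omega
  -- the two candidates
  set c : MulChar (ZMod p) ℂ := (chi hπ hp3).ringHomComp toC with hc
  obtain ⟨g, hg⟩ := (inferInstance : IsCyclic (ZMod p)ˣ).exists_generator
  have hcg3 : c (g : ZMod p) ^ 3 = 1 := by
    rw [hc, MulChar.ringHomComp_apply, ← map_pow, chi_cube hπ hp3 g.ne_zero, map_one]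
  have hcg1 : c (g : ZMod p) ≠ 1 := by
    intro h
    apply comp_ne_one hπ hp3 toC (fun u v _ _ h => toC_inj h)
    rw [MulChar.eq_iff hg, ← hc, h, MulChar.one_apply_coe]
  have hχg1 : χ (g : ZMod p) ≠ 1 := by
    intro h
    apply hχ1
    rw [MulChar.eq_iff hg, h, MulChar.one_apply_coe]
  have hcase : χ = c ∨ χ = c * c := by
    rw [MulChar.eq_iff hg, MulChar.eq_iff hg, MulChar.mul_apply]
    have hw3 := z_cube wC_sq
    rcases root_cases wC_sq (hcube g) with h1 | h1 | h1
    · exact absurd h1 hχg1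
    · rcases root_cases wC_sq hcg3 with h2 | h2 | h2
      · exact absurd h2 hcg1
      · left
        rw [h1, h2]
      · right
        rw [h1, h2]
        calc wC = wC ^ 3 * wC := by rw [hw3, one_mul]
          _ = _ := by ring
    · rcases root_cases wC_sq hcg3 with h2 | h2 | h2
      · exact absurd h2 hcg1
      · right
        rw [h1, h2, pow_two]
      · left
        rw [h1, h2]
  have hval : ∀ n : ℕ, ¬ p ∣ n → 1 ≤ n → chi hπ hp3 (n : ZMod p) = kn n (ns π) := by
    intro n hn hn1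
    have h1 := (kap n (by omega)).val p π hπ hp3 (fun h => hn (by exact_mod_cast h))
    rw [Int.cast_natCast] at h1
    exact h1
  have hzero : ∀ (α : Ei) (n : ℕ), nr α = p → p ∣ n → χ (n : ZMod p) = xi α n := by
    intro α n hα hn
    have h1 : (n : ZMod p) = 0 := (ZMod.natCast_eq_zero_iff n p).2 hn
    rw [h1, MulChar.map_zero]
    unfold xi
    rw [if_neg]
    rw [hα, Nat.isCoprime_iff_coprime]
    intro h
    exact (Nat.Prime.coprime_iff_not_dvd hp).1 h hn
  have hcop : ∀ (α : Ei) (n : ℕ), nr α = p → ¬ p ∣ n → IsCoprime (nr α) (n : ℤ) := by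
    intro α n hα hn
    rw [hα, Nat.isCoprime_iff_coprime]
    exact (Nat.Prime.coprime_iff_not_dvd hp).2 hn
  have hnr : nr (ns π) = p := by rw [nr_ns hn3, hπ]
  rcases hcase with hχ | hχ
  · refine ⟨ns π, ns_one hn3, hnr, fun n hn => ?_⟩
    by_cases hd : p ∣ n
    · exact hzero _ n hnr hd
    · unfold xi
      rw [if_pos (hcop _ n hnr hd), ← hval n hd hn, hχ, hc, MulChar.ringHomComp_apply]
  · have hnr' : nr (star (ns π)) = p := by rw [nr_star, hnr]
    refine ⟨star (ns π), ?_, hnr', fun n hn => ?_⟩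
    · obtain ⟨d, hd⟩ := ns_one hn3
      refine ⟨star d, ?_⟩
      have h1 : star (ns π - 1) = star ((3 : Ei) * d) := by rw [hd]
      rw [star_sub, star_one, star_mul] at h1
      have h2 : star (3 : Ei) = 3 := by decide
      rw [h1, h2, mul_comm]
    by_cases hd : p ∣ n
    · exact hzero _ n hnr' hd
    · have hK := kap n (by omega)
      unfold xi
      rw [if_pos (hcop _ n hnr' hd), hK.str (ns π) (hcop _ n hnr hd) (ns_one hn3),
        ← hval n hd hn, hχ, MulChar.mul_apply, hc, MulChar.ringHomComp_apply, ← map_mul]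
      congr 1
      have hn0 : (n : ZMod p) ≠ 0 := by
        rw [Ne, ZMod.natCast_eq_zero_iff]
        exact hd
      have h1 := chi_cube hπ hp3 hn0
      obtain ⟨h2, -⟩ := star_cube h1
      calc chi hπ hp3 (n : ZMod p) * chi hπ hp3 (n : ZMod p) =
          chi hπ hp3 (n : ZMod p) * chi hπ hp3 (n : ZMod p) *
            (chi hπ hp3 (n : ZMod p) * star (chi hπ hp3 (n : ZMod p))) := by rw [h2, mul_one]
        _ = chi hπ hp3 (n : ZMod p) ^ 3 * star (chi hπ hp3 (n : ZMod p)) := by ring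
        _ = _ := by rw [h1, one_mul]

end

end Pool.Agent.Q123.CC
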