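import Pool.Agent.Q123.CC.Basic

/-!
# Codes closed under a Boolean operation that is not affine are closed under a conjunction, a
disjunction or the majority of three
-/

namespace Q123.CC

open Finset

variable {n k : ℕ}

/-- The point which is `x` on the support of `a` and `y` elsewhere. -/
def two (a : Fin k → ZMod 2) (x y : ZMod 2) : Fin k → ZMod 2 := fun i => if a i = 1 then x else y

theorem closed_two {f : (Fin k → ZMod 2) → ZMod 2} {C : Finset (Fin n → ZMod 2)}
    (h : ClosedUnder f C) (a : Fin k → ZMod 2) {x y : Fin n → ZMod 2} (hx : x ∈ C) (hy : y ∈ C) :
    (fun j => f (two a (x j) (y j))) ∈ C := by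
  have h1 := h (fun i => if a i = 1 then x else y) (by
    intro i
    split_ifs <;> assumption)
  have e : (fun j => f (two a (x j) (y j)))
      = fun j => f (fun i => (if a i = 1 then x else y) j) := by
    funext j
    congr 1
    funext i
    unfold two
    split_ifs <;> rfl
  rw [e]
  exact h1

theorem two_self (a : Fin k → ZMod 2) (x : ZMod 2) : two a x x = fun _ => x := by
  funext i
  simp [two]

theorem two_one_zero (a : Fin k → ZMod 2) : two a 1 0 = a := by
  funext i
  unfold two
  rcases zmod2_cases (a i) with h | h <;> rw [h] <;> decide

theorem two_zero_one (a : Fin k → ZMod 2) : two a 0 1 = a + 1 := by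
  funext i
  unfold two
  rw [Pi.add_apply, Pi.one_apply]
  rcases zmod2_cases (a i) with h | h <;> rw [h] <;> decide

/-- The point which is `x` on the support of `a`, `y` on the support of `b`, and `z` elsewhere. -/
def three (a b : Fin k → ZMod 2) (x y z : ZMod 2) : Fin k → ZMod 2 :=
  fun i => if a i = 1 then x else if b i = 1 then y else z

theorem closed_three {f : (Fin k → ZMod 2) → ZMod 2} {C : Finset (Fin n → ZMod 2)}
    (h : ClosedUnder f C) (a b : Fin k → ZMod 2) {x y z : Fin n → ZMod 2} (hx : x ∈ C)
    (hy : y ∈ C) (hz : z ∈ C) :
    (fun j => f (three a b (x j) (y j) (z j))) ∈ C := by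
  have h1 := h (fun i => if a i = 1 then x else if b i = 1 then y else z) (by
    intro i
    split_ifs <;> assumption)
  have e : (fun j => f (three a b (x j) (y j) (z j)))
      = fun j => f (fun i => (if a i = 1 then x else if b i = 1 then y else z) j) := by
    funext j
    congr 1
    funext i
    unfold three
    split_ifs <;> rfl
  rw [e]
  exact h1

/-- The three target closure properties. -/
def Target (C : Finset (Fin n → ZMod 2)) : Prop :=
  (∀ x ∈ C, ∀ y ∈ C, x * y ∈ C) ∨ (∀ x ∈ C, ∀ y ∈ C, x + y + x * y ∈ C) ∨
    (∀ x ∈ C, ∀ y ∈ C, ∀ z ∈ C, x * y + y * z + z * x ∈ C)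

/-- An additive function is a sum of variables. -/
theorem affine_of_additive {f : (Fin k → ZMod 2) → ZMod 2} (h0 : f 0 = 0)
    (hadd : ∀ a b : Fin k → ZMod 2, (∀ i, a i * b i = 0) → f (a + b) = f a + f b) :
    IsAffine f := by
  classical
  refine ⟨0, univ.filter fun i => f (Pi.single i 1) = 1, ?_⟩
  intro x
  have key : ∀ s : Finset (Fin k), f (fun i => if i ∈ s then x i else 0)
      = ∑ i ∈ s, x i * f (Pi.single i 1) := by
    intro s
    induction s using Finset.induction_on with
    | empty =>
      simp only [notMem_empty, if_false, sum_empty]
      exact h0
    | insert a s has ih =>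
      rw [sum_insert has, ← ih]
      have e : (fun i => if i ∈ insert a s then x i else 0)
          = Pi.single a (x a) + fun i => if i ∈ s then x i else 0 := by
        funext i
        rw [Pi.add_apply]
        by_cases hia : i = a
        · subst hia
          simp [has]
        · rw [Pi.single_eq_of_ne hia, zero_add]
          simp [hia]
      rw [e, hadd]
      · congr 1
        rcases zmod2_cases (x a) with hx | hx
        · rw [hx, Pi.single_zero, h0, zero_mul]
        · rw [hx, one_mul]
      · intro i
        by_cases hia : i = a
        · subst hia
          simp [has]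
        · rw [Pi.single_eq_of_ne hia, zero_mul]
  have h1 := key univ
  simp only [mem_univ, if_true] at h1
  rw [zero_add, sum_filter]
  rw [show (fun i => x i) = x from rfl] at h1
  rw [h1]
  apply sum_congr rfl
  intro i _
  rcases zmod2_cases (f (Pi.single i 1)) with h | h <;> rw [h] <;> simp

/-- The idempotent case. -/
theorem target_of_idempotent {f : (Fin k → ZMod 2) → ZMod 2} (hf : ¬ IsAffine f)
    (h0 : f (fun _ => 0) = 0) (h1 : f (fun _ => 1) = 1) (C : Finset (Fin n → ZMod 2))
    (hC : ClosedUnder f C) : Target C := by
  classical
  by_cases hand : ∃ a, f a = 0 ∧ f (a + 1) = 0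
  · left
    obtain ⟨a, ha, ha'⟩ := hand
    intro x hx y hy
    have h := closed_two hC a hx hy
    have e : (fun j => f (two a (x j) (y j))) = x * y := by
      funext j
      rw [Pi.mul_apply]
      rcases zmod2_cases (x j) with hx | hx <;> rcases zmod2_cases (y j) with hy | hy <;>
        rw [hx, hy]
      · rw [two_self, h0]; decide
      · rw [two_zero_one, ha']; decide
      · rw [two_one_zero, ha]; decide
      · rw [two_self, h1]; decide
    rwa [e] at h
  by_cases hor : ∃ a, f a = 1 ∧ f (a + 1) = 1
  · right; left
    obtain ⟨a, ha, ha'⟩ := hor
    intro x hx y hy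
    have h := closed_two hC a hx hy
    have e : (fun j => f (two a (x j) (y j))) = x + y + x * y := by
      funext j
      rw [Pi.add_apply, Pi.add_apply, Pi.mul_apply]
      rcases zmod2_cases (x j) with hx | hx <;> rcases zmod2_cases (y j) with hy | hy <;>
        rw [hx, hy]
      · rw [two_self, h0]; decide
      · rw [two_zero_one, ha']; decide
      · rw [two_one_zero, ha]; decide
      · rw [two_self, h1]; decide
    rwa [e] at h
  right; right
  push Not at hand hor
  have hdual : ∀ a, f (a + 1) = f a + 1 := by
    intro a
    rcases zmod2_cases (f a) with h | h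
    · rw [h]
      rcases zmod2_cases (f (a + 1)) with h' | h'
      · exact absurd h' (hand a h)
      · rw [h']; decide
    · rw [h]
      rcases zmod2_cases (f (a + 1)) with h' | h'
      · rw [h']; decide
      · exact absurd h' (hor a h)
  have hex : ∃ a b : Fin k → ZMod 2, (∀ i, a i * b i = 0) ∧ f (a + b) ≠ f a + f b := by
    by_contra hcon
    push Not at hcon
    exact hf (affine_of_additive h0 hcon)
  obtain ⟨a, b, hab, hne⟩ := hex
  have hsum : f (a + b + 1) = f a + f b := by
    rw [hdual]
    revert hne
    generalize f (a + b) = u
    generalize f a = v
    generalize f b = w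
    revert u v w
    decide
  -- the values of the ternary minor
  have e100 : three a b 1 0 0 = a := by
    funext i
    have := hab i
    unfold three
    rcases zmod2_cases (a i) with h | h <;> rcases zmod2_cases (b i) with h' | h' <;>
      rw [h, h'] at this ⊢ <;> decide
  have e010 : three a b 0 1 0 = b := by
    funext i
    have := hab i
    unfold three
    rcases zmod2_cases (a i) with h | h <;> rcases zmod2_cases (b i) with h' | h' <;>
      rw [h, h'] at this ⊢ <;> first | decide | exact absurd this (by decide)
  have e001 : three a b 0 0 1 = a + b + 1 := by
    funext i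
    have := hab i
    unfold three
    rw [Pi.add_apply, Pi.add_apply, Pi.one_apply]
    rcases zmod2_cases (a i) with h | h <;> rcases zmod2_cases (b i) with h' | h' <;>
      rw [h, h'] at this ⊢ <;> first | decide | exact absurd this (by decide)
  have e011 : three a b 0 1 1 = a + 1 := by
    funext i
    unfold three
    rw [Pi.add_apply, Pi.one_apply]
    rcases zmod2_cases (a i) with h | h <;> rcases zmod2_cases (b i) with h' | h' <;>
      rw [h, h'] <;> decide
  have e101 : three a b 1 0 1 = b + 1 := by
    funext i
    have := hab i
    unfold three
    rw [Pi.add_apply, Pi.one_apply]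
    rcases zmod2_cases (a i) with h | h <;> rcases zmod2_cases (b i) with h' | h' <;>
      rw [h, h'] at this ⊢ <;> first | decide | exact absurd this (by decide)
  have e110 : three a b 1 1 0 = a + b := by
    funext i
    have := hab i
    unfold three
    rw [Pi.add_apply]
    rcases zmod2_cases (a i) with h | h <;> rcases zmod2_cases (b i) with h' | h' <;>
      rw [h, h'] at this ⊢ <;> first | decide | exact absurd this (by decide)
  have e000 : three a b 0 0 0 = fun _ => 0 := by
    funext i
    simp [three]
  have e111 : three a b 1 1 1 = fun _ => 1 := by
    funext i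
    simp [three]
  have hform : ∀ x y z : ZMod 2, f (three a b x y z)
      = x * y + y * z + z * x + f a * x + f b * y + (f a + f b) * z := by
    have hab' : f (a + b) = f a + f b + 1 := by
      revert hne
      generalize f (a + b) = u
      generalize f a = v
      generalize f b = w
      revert u v w
      decide
    intro x y z
    rcases zmod2_cases x with rfl | rfl <;> rcases zmod2_cases y with rfl | rfl <;>
      rcases zmod2_cases z with rfl | rfl
    · rw [e000, h0]; ring
    · rw [e001, hsum]; ring
    · rw [e010]; ring
    · rw [e011, hdual]
      generalize f a = v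
      generalize f b = w
      revert v w
      decide
    · rw [e100]; ring
    · rw [e101, hdual]
      generalize f a = v
      generalize f b = w
      revert v w
      decide
    · rw [e110, hab']
      generalize f a = v
      generalize f b = w
      revert v w
      decide
    · rw [e111, h1]
      generalize f a = v
      generalize f b = w
      revert v w
      decide
  intro x hx y hy z hz
  have ht : ∀ x ∈ C, ∀ y ∈ C, ∀ z ∈ C,
      (fun j => x j * y j + y j * z j + z j * x j + f a * x j + f b * y j + (f a + f b) * z j)
        ∈ C := by
    intro x hx y hy z hz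
    have h := closed_three hC a b hx hy hz
    simp only [hform] at h
    exact h
  -- three cases
  rcases zmod2_cases (f a) with ha | ha
  · -- the coefficient of `x` vanishes
    have h2 := ht _ (ht x hx y hy z hz) y hy z hz
    have e : (fun j => x j * y j + y j * z j + z j * x j)
        = x * y + y * z + z * x := rfl
    rw [← e]
    convert h2 using 1
    funext j
    rw [ha]
    generalize f b = w
    generalize x j = x'
    generalize y j = y'
    generalize z j = z'
    revert w x' y' z'
    decide
  · rcases zmod2_cases (f b) with hb | hb
    · have h2 := ht x hx _ (ht x hx y hy z hz) z hz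
      have e : (fun j => x j * y j + y j * z j + z j * x j)
          = x * y + y * z + z * x := rfl
      rw [← e]
      convert h2 using 1
      funext j
      rw [ha, hb]
      generalize x j = x'
      generalize y j = y'
      generalize z j = z'
      revert x' y' z'
      decide
    · have h2 := ht x hx y hy _ (ht x hx y hy z hz)
      have e : (fun j => x j * y j + y j * z j + z j * x j)
          = x * y + y * z + z * x := rfl
      rw [← e]
      convert h2 using 1
      funext j
      rw [ha, hb]
      generalize x j = x'
      generalize y j = y'
      generalize z j = z'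
      revert x' y' z'
      decide

/-- The case of an operation vanishing at both constant points. -/
theorem mul_of_zero {f : (Fin k → ZMod 2) → ZMod 2} (hf : ¬ IsAffine f)
    (h0 : f (fun _ => 0) = 0) (h1 : f (fun _ => 1) = 0) (C : Finset (Fin n → ZMod 2))
    (hC : ClosedUnder f C) : ∀ x ∈ C, ∀ y ∈ C, x * y ∈ C := by
  classical
  have hex : ∃ a, f a = 1 := by
    by_contra hcon
    push Not at hcon
    apply hf
    refine ⟨0, ∅, fun x => ?_⟩
    rw [sum_empty, add_zero]
    exact (zmod2_cases (f x)).resolve_right (hcon x)
  obtain ⟨a, ha⟩ := hex
  intro x hx y hy
  rcases zmod2_cases (f (a + 1)) with ha' | ha'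
  · -- `x (y + 1)`
    have hh : ∀ x ∈ C, ∀ y ∈ C, (fun j => x j * (y j + 1)) ∈ C := by
      intro x hx y hy
      have h := closed_two hC a hx hy
      have e : (fun j => f (two a (x j) (y j))) = fun j => x j * (y j + 1) := by
        funext j
        rcases zmod2_cases (x j) with hx | hx <;> rcases zmod2_cases (y j) with hy | hy <;>
          rw [hx, hy]
        · rw [two_self, h0]; decide
        · rw [two_zero_one, ha']; decide
        · rw [two_one_zero, ha]; decide
        · rw [two_self, h1]; decide
      rwa [e] at h
    have h2 := hh x hx _ (hh x hx y hy)
    convert h2 using 1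
    funext j
    rw [Pi.mul_apply]
    generalize x j = x'
    generalize y j = y'
    revert x' y'
    decide
  · have hadd : ∀ x ∈ C, ∀ y ∈ C, x + y ∈ C := by
      intro x hx y hy
      have h := closed_two hC a hx hy
      have e : (fun j => f (two a (x j) (y j))) = x + y := by
        funext j
        rw [Pi.add_apply]
        rcases zmod2_cases (x j) with hx | hx <;> rcases zmod2_cases (y j) with hy | hy <;>
          rw [hx, hy]
        · rw [two_self, h0]; decide
        · rw [two_zero_one, ha']; decide
        · rw [two_one_zero, ha]; decide
        · rw [two_self, h1]; decide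
      rwa [e] at h
    have hexpq : ∃ p q : Fin k → ZMod 2, f (p + q) ≠ f p + f q := by
      by_contra hcon
      push Not at hcon
      exact hf (affine_of_additive h0 (fun a b _ => hcon a b))
    obtain ⟨p, q, hpq⟩ := hexpq
    have hpq' : f (p + q) = f p + f q + 1 := by
      revert hpq
      generalize f (p + q) = u
      generalize f p = v
      generalize f q = w
      revert u v w
      decide
    have hzero : (0 : Fin n → ZMod 2) ∈ C := by
      have := hadd x hx x hx
      have e : x + x = 0 := by
        funext j
        exact CharTwo.add_self_eq_zero _
      rwa [e] at this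
    have hsmul : ∀ c : ZMod 2, ∀ x ∈ C, c • x ∈ C := by
      intro c x hx
      rcases zmod2_cases c with rfl | rfl
      · rw [zero_smul]
        exact hzero
      · rw [one_smul]
        exact hx
    have h2 := hC (fun i => p i • x + q i • y) (fun i => hadd _ (hsmul _ x hx) _ (hsmul _ y hy))
    have e : (fun j => f (fun i => (p i • x + q i • y) j)) = x * y + (f p • x + f q • y) := by
      funext j
      simp only [Pi.add_apply, Pi.smul_apply, smul_eq_mul, Pi.mul_apply]
      rcases zmod2_cases (x j) with hx | hx <;> rcases zmod2_cases (y j) with hy | hy <;>
        rw [hx, hy]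
      · simp only [mul_zero, add_zero]
        exact h0
      · simp only [mul_zero, mul_one, zero_add]
      · simp only [mul_zero, mul_one, add_zero, zero_add]
      · simp only [mul_one]
        have : (fun i => p i + q i) = p + q := rfl
        rw [this, hpq']
        ring
    rw [e] at h2
    have h3 := hadd _ h2 _ (hadd _ (hsmul (f p) x hx) _ (hsmul (f q) y hy))
    have e2 : x * y + (f p • x + f q • y) + (f p • x + f q • y) = x * y := by
      rw [add_assoc]
      have : (f p • x + f q • y) + (f p • x + f q • y) = 0 := by
        funext j
        exact CharTwo.add_self_eq_zero ((f p • x + f q • y) j)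
      rw [this, add_zero]
    rwa [e2] at h3

/-- **Lemma.** A code closed under an operation that is not affine is closed under one of the
three operations `x y`, `x + y + x y`, `x y + y z + z x`. -/
theorem target_of_closed {f : (Fin k → ZMod 2) → ZMod 2} (hf : ¬ IsAffine f)
    (C : Finset (Fin n → ZMod 2)) (hC : ClosedUnder f C) : Target C := by
  classical
  rcases zmod2_cases (f (fun _ => 0)) with h0 | h0 <;>
    rcases zmod2_cases (f (fun _ => 1)) with h1 | h1
  · exact Or.inl (mul_of_zero hf h0 h1 C hC)
  · exact target_of_idempotent hf h0 h1 C hC
  · -- the operation is the negation on the diagonal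
    have hneg : ∀ x ∈ C, x + 1 ∈ C := by
      intro x hx
      have h := closed_two hC 0 hx hx
      have e : (fun j => f (two 0 (x j) (x j))) = x + 1 := by
        funext j
        rw [two_self, Pi.add_apply, Pi.one_apply]
        rcases zmod2_cases (x j) with hx | hx <;> rw [hx]
        · rw [h0]; decide
        · rw [h1]; decide
      rwa [e] at h
    apply target_of_idempotent (f := fun x => f x + 1) _ _ _ C _
    · rintro ⟨c, s, hs⟩
      apply hf
      refine ⟨c + 1, s, fun x => ?_⟩
      have h : f x + 1 = c + ∑ i ∈ s, x i := hs x
      have e : f x = f x + 1 + 1 := by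
        generalize f x = u
        revert u
        decide
      rw [e, h]
      ring
    · rw [h0]; decide
    · rw [h1]; decide
    · intro w hw
      exact hneg _ (hC w hw)
  · -- the operation is constantly one on the diagonal
    right; left
    have hone : ∀ x : Fin n → ZMod 2, x + 1 + 1 = x := by
      intro x
      funext j
      rw [Pi.add_apply, Pi.add_apply, Pi.one_apply]
      generalize x j = u
      revert u
      decide
    have hg : ¬ IsAffine (fun x : Fin k → ZMod 2 => f (x + 1) + 1) := by
      rintro ⟨c, s, hs⟩
      apply hf
      refine ⟨c + 1 + ∑ _i ∈ s, 1, s, fun x => ?_⟩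
      have h := hs (x + 1)
      have e1 : x + 1 + 1 = x := by
        funext j
        rw [Pi.add_apply, Pi.add_apply, Pi.one_apply]
        generalize x j = u
        revert u
        decide
      simp only [e1, Pi.add_apply, Pi.one_apply, sum_add_distrib] at h
      have e : f x = f x + 1 + 1 := by
        generalize f x = u
        revert u
        decide
      rw [e, h]
      ring
    have hC' : ClosedUnder (fun x : Fin k → ZMod 2 => f (x + 1) + 1) (C.image (· + 1)) := by
      intro w hw
      rw [mem_image]
      refine ⟨fun j => f (fun i => (w i + 1) j), ?_, rfl⟩
      apply hC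
      intro i
      have := hw i
      rw [mem_image] at this
      obtain ⟨y, hy, hyw⟩ := this
      rw [← hyw, hone]
      exact hy
    have hmul := mul_of_zero hg (by
      have e : ((fun _ => 0 : Fin k → ZMod 2) + 1) = fun _ => 1 := by
        funext i
        simp
      simp only [e, h1]
      decide) (by
      have e : ((fun _ => 1 : Fin k → ZMod 2) + 1) = fun _ => 0 := by
        funext i
        rw [Pi.add_apply, Pi.one_apply]
        decide
      simp only [e, h0]
      decide) _ hC'
    intro x hx y hy
    have h := hmul (x + 1) (mem_image_of_mem _ hx) (y + 1) (mem_image_of_mem _ hy)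
    rw [mem_image] at h
    obtain ⟨z, hz, hzz⟩ := h
    have e : x + y + x * y = z := by
      rw [← hone z]
      have h3 : z + 1 = (x + 1) * (y + 1) := hzz
      rw [h3]
      funext j
      simp only [Pi.add_apply, Pi.mul_apply, Pi.one_apply]
      generalize x j = u
      generalize y j = v
      revert u v
      decide
    rw [e]
    exact hz

end Q123.CC
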