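import Pool.Agent.Q152.CC.Stm

/-!
Project CC (helper152), job CRT: primitive characters of a composite modulus.
-/

set_option autoImplicit false

namespace Pool.Agent.Q123.CC

open Pool.Agent.Y692.QS Pool.Agent.Q152.CC

noncomputable section

/-- the units of a product -/
def eu {a b : ℕ} (h : a.Coprime b) : (ZMod (a * b))ˣ ≃* (ZMod a)ˣ × (ZMod b)ˣ :=
  (Units.mapEquiv (ZMod.chineseRemainder h).toMulEquiv).trans MulEquiv.prodUnits

theorem eu_fst {a b : ℕ} (h : a.Coprime b) (u : (ZMod (a * b))ˣ) :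
    (((eu h u).1 : (ZMod a)ˣ) : ZMod a) = ZMod.castHom (dvd_mul_right a b) (ZMod a) (u : ZMod (a * b)) := by
  have h1 : (((eu h u).1 : (ZMod a)ˣ) : ZMod a) =
      ((RingHom.fst (ZMod a) (ZMod b)).comp (ZMod.chineseRemainder h).toRingHom) (u : ZMod (a * b)) := rfl
  rw [h1]
  exact RingHom.congr_fun (Subsingleton.elim _ _) _

theorem eu_snd {a b : ℕ} (h : a.Coprime b) (u : (ZMod (a * b))ˣ) :
    (((eu h u).2 : (ZMod b)ˣ) : ZMod b) = ZMod.castHom (dvd_mul_left b a) (ZMod b) (u : ZMod (a * b)) := by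
  have h1 : (((eu h u).2 : (ZMod b)ˣ) : ZMod b) =
      ((RingHom.snd (ZMod a) (ZMod b)).comp (ZMod.chineseRemainder h).toRingHom) (u : ZMod (a * b)) := rfl
  rw [h1]
  exact RingHom.congr_fun (Subsingleton.elim _ _) _

theorem crt : S_CRT := by
  intro a b ha hb hab χ hχ3 hχp
  have : NeZero a := ⟨by omega⟩
  have : NeZero b := ⟨by omega⟩
  have : NeZero (a * b) := ⟨Nat.mul_ne_zero (by omega) (by omega)⟩
  set f : (ZMod a)ˣ × (ZMod b)ˣ →* ℂˣ := χ.toUnitHom.comp (eu hab).symm.toMonoidHom with hf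
  set χ₁ : DirichletCharacter ℂ a :=
    MulChar.ofUnitHom (f.comp (MonoidHom.inl (ZMod a)ˣ (ZMod b)ˣ)) with hχ₁
  set χ₂ : DirichletCharacter ℂ b :=
    MulChar.ofUnitHom (f.comp (MonoidHom.inr (ZMod a)ˣ (ZMod b)ˣ)) with hχ₂
  have e1 : ∀ x : (ZMod a)ˣ, χ₁ (x : ZMod a) = χ (((eu hab).symm (x, 1) : (ZMod (a * b))ˣ) : ZMod (a * b)) := by
    intro x
    rw [hχ₁, MulChar.ofUnitHom_coe]
    rfl
  have e2 : ∀ y : (ZMod b)ˣ, χ₂ (y : ZMod b) = χ (((eu hab).symm (1, y) : (ZMod (a * b))ˣ) : ZMod (a * b)) := by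
    intro y
    rw [hχ₂, MulChar.ofUnitHom_coe]
    rfl
  have e3 : ∀ u : (ZMod (a * b))ˣ, χ (u : ZMod (a * b)) =
      χ₁ ((eu hab u).1 : ZMod a) * χ₂ ((eu hab u).2 : ZMod b) := by
    intro u
    rw [e1, e2, ← map_mul, ← Units.val_mul, ← map_mul]
    congr 2
    rw [Prod.mk_mul_mk, mul_one, one_mul, Prod.mk.eta, MulEquiv.symm_apply_apply]
  have cube : ∀ u : (ZMod (a * b))ˣ, χ (u : ZMod (a * b)) ^ 3 = 1 := by
    intro u
    rw [← MulChar.pow_apply_coe, hχ3, MulChar.one_apply_coe]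
  have hdec : χ = DirichletCharacter.changeLevel (dvd_mul_right a b) χ₁ *
      DirichletCharacter.changeLevel (dvd_mul_left b a) χ₂ := by
    refine MulChar.ext fun u => ?_
    rw [MulChar.mul_apply, DirichletCharacter.changeLevel_eq_cast_of_dvd,
      DirichletCharacter.changeLevel_eq_cast_of_dvd, e3 u, eu_fst, eu_snd]
    rfl
  have hc := DirichletCharacter.conductor_mul_dvd_lcm_conductor
    (DirichletCharacter.changeLevel (dvd_mul_right a b) χ₁)
    (DirichletCharacter.changeLevel (dvd_mul_left b a) χ₂)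
  rw [← hdec, DirichletCharacter.conductor_changeLevel, DirichletCharacter.conductor_changeLevel,
    DirichletCharacter.isPrimitive_def _ |>.1 hχp] at hc
  have d1 : χ₁.conductor ∣ a := χ₁.conductor_dvd_level
  have d2 : χ₂.conductor ∣ b := χ₂.conductor_dvd_level
  have p1 : χ₁.conductor ≠ 0 := χ₁.conductor_ne_zero
  have p2 : χ₂.conductor ≠ 0 := χ₂.conductor_ne_zero
  have hle : a * b ≤ χ₁.conductor * χ₂.conductor :=
    Nat.le_of_dvd (Nat.mul_pos (Nat.pos_of_ne_zero p1) (Nat.pos_of_ne_zero p2))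
      (hc.trans (Nat.lcm_dvd_mul _ _))
  have l1 : χ₁.conductor ≤ a := Nat.le_of_dvd (by omega) d1
  have l2 : χ₂.conductor ≤ b := Nat.le_of_dvd (by omega) d2
  have q1 : χ₁.conductor = a := by
    by_contra hne
    have h1 : χ₁.conductor < a := lt_of_le_of_ne l1 hne
    have h2 : χ₁.conductor * χ₂.conductor < a * b := by
      calc χ₁.conductor * χ₂.conductor ≤ χ₁.conductor * b := Nat.mul_le_mul_left _ l2
        _ < a * b := Nat.mul_lt_mul_of_pos_right h1 (by omega)
    omega
  have q2 : χ₂.conductor = b := by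
    by_contra hne
    have h1 : χ₂.conductor < b := lt_of_le_of_ne l2 hne
    have h2 : χ₁.conductor * χ₂.conductor < a * b := by
      calc χ₁.conductor * χ₂.conductor ≤ a * χ₂.conductor := Nat.mul_le_mul_right _ l1
        _ < a * b := Nat.mul_lt_mul_of_pos_left h1 (by omega)
    omega
  refine ⟨χ₁, χ₂, ?_, ?_, q1, q2, ?_⟩
  · refine MulChar.ext fun x => ?_
    rw [MulChar.pow_apply_coe, e1, cube, MulChar.one_apply_coe]
  · refine MulChar.ext fun x => ?_
    rw [MulChar.pow_apply_coe, e2, cube, MulChar.one_apply_coe]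
  · intro n
    by_cases hn : n.Coprime (a * b)
    · have h1 := e3 (ZMod.unitOfCoprime n hn)
      rw [eu_fst, eu_snd, ZMod.coe_unitOfCoprime,
        map_natCast (ZMod.castHom (dvd_mul_right a b) (ZMod a)),
        map_natCast (ZMod.castHom (dvd_mul_left b a) (ZMod b))] at h1
      exact h1
    · have h1 : χ (n : ZMod (a * b)) = 0 := by
        apply MulChar.map_nonunit
        rw [ZMod.isUnit_iff_coprime]
        exact hn
      rw [h1]
      rw [Nat.coprime_mul_iff_right, not_and_or] at hn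
      rcases hn with hn | hn
      · have h2 : χ₁ (n : ZMod a) = 0 := by
          apply MulChar.map_nonunit
          rw [ZMod.isUnit_iff_coprime]
          exact hn
        rw [h2, zero_mul]
      · have h2 : χ₂ (n : ZMod b) = 0 := by
          apply MulChar.map_nonunit
          rw [ZMod.isUnit_iff_coprime]
          exact hn
        rw [h2, mul_zero]

end

end Pool.Agent.Q123.CC
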