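import Pool.Agent.Q152.CC.Stm
import Pool.Agent.Helper793.Cube.Main

/-!
Project CC (helper152), job PIX: a prime congruent to one modulo three is a norm.
-/

set_option autoImplicit false

namespace Pool.Agent.Q123.CC

open Pool.Agent.Y692.QS Pool.Agent.Q152.CC

theorem pix : S_PIX := by
  intro p hp h3
  obtain ⟨x, y, h⟩ := Pool.Agent.Helper793.Cube.norm_form3 p hp h3
  refine ⟨⟨x, -y⟩, ?_⟩
  unfold nr
  show x ^ 2 - x * (-y) + (-y) ^ 2 = p
  linarith [h]

end Pool.Agent.Q123.CC
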