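import Pool.Agent.Q123.CC.Clone

/-!
# The block code, and codes closed under an affine operation
-/

namespace Q123.CC

open Finset

variable {n k : ℕ}

/-- The block of a coordinate: `m` blocks of length `d`, the last one with the left-over. -/
def blk {n : ℕ} (d m : ℕ) (hm : 0 < m) (j : Fin n) : Fin m :=
  ⟨min (j.val / d) (m - 1), by omega⟩

/-- The block code has `2 ^ (n / d)` words, minimum distance at least `d`, and is closed under
every Boolean operation. -/
theorem exists_block {n d : ℕ} (hd : 1 ≤ d) (hdn : d ≤ n) :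
    ∃ C : Finset (Fin n → ZMod 2), C.card = 2 ^ (n / d) ∧ MinDist d C ∧
      ∀ (k : ℕ) (f : (Fin k → ZMod 2) → ZMod 2), ClosedUnder f C := by
  classical
  have hm : 0 < n / d := Nat.div_pos hdn (by omega)
  set m := n / d with hmdef
  let φ : (Fin m → ZMod 2) → (Fin n → ZMod 2) := fun b j => b (blk d m hm j)
  have hmd : m * d ≤ n := Nat.div_mul_le_self n d
  have hdiff : ∀ b b' : Fin m → ZMod 2, ∀ t : Fin m, b t ≠ b' t →
      d ≤ hammingDist (φ b) (φ b') := by
    intro b b' t ht
    unfold hammingDist
    have hlt : ∀ i : Fin d, t.val * d + i.val < n := by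
      intro i
      have h1 : (t.val + 1) * d ≤ m * d := Nat.mul_le_mul_right d t.isLt
      have h2 : (t.val + 1) * d = t.val * d + d := by ring
      have := i.isLt
      omega
    have hcard : (univ.image (fun i : Fin d => (⟨t.val * d + i.val, hlt i⟩ : Fin n))).card
        = d := by
      rw [card_image_of_injective _ (by
        intro i i' h
        have := congrArg Fin.val h
        simp only at this
        exact Fin.ext (by omega))]
      simp
    refine hcard.symm.le.trans (card_le_card ?_)
    intro j hj
    rw [mem_image] at hj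
    obtain ⟨i, _, rfl⟩ := hj
    rw [mem_filter]
    refine ⟨mem_univ _, ?_⟩
    have hb : blk d m hm (⟨t.val * d + i.val, hlt i⟩ : Fin n) = t := by
      apply Fin.ext
      simp only [blk]
      have h1 : (t.val * d + i.val) / d = t.val := by
        rw [add_comm, Nat.add_mul_div_right _ _ (by omega), Nat.div_eq_of_lt i.isLt, zero_add]
      rw [h1]
      have := t.isLt
      omega
    show b (blk d m hm _) ≠ b' (blk d m hm _)
    rw [hb]
    exact ht
  have hinj : Function.Injective φ := by
    intro b b' h
    by_contra hne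
    obtain ⟨t, ht⟩ := Function.ne_iff.mp hne
    have := hdiff b b' t ht
    rw [h, hammingDist_self] at this
    omega
  refine ⟨univ.image φ, ?_, ?_, ?_⟩
  · rw [card_image_of_injective _ hinj, card_univ]
    simp
  · intro x hx y hy hne
    rw [mem_image] at hx hy
    obtain ⟨b, _, rfl⟩ := hx
    obtain ⟨b', _, rfl⟩ := hy
    obtain ⟨t, ht⟩ := Function.ne_iff.mp (fun h : b = b' => hne (by rw [h]))
    exact hdiff b b' t ht
  · intro k f w hw
    have hw' : ∀ i, ∃ b, φ b = w i := fun i => by
      have := hw i
      rw [mem_image] at this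
      obtain ⟨b, _, hb⟩ := this
      exact ⟨b, hb⟩
    choose b hb using hw'
    rw [mem_image]
    refine ⟨fun t => f (fun i => b i t), mem_univ _, ?_⟩
    funext j
    show f (fun i => b i (blk d m hm j)) = f (fun i => w i j)
    congr 1
    funext i
    rw [← hb i]

/-- A nonempty code closed under an affine operation with at least two variables is a coset of a
linear code. -/
theorem coset_of_affine {f : (Fin k → ZMod 2) → ZMod 2} {c : ZMod 2} {s : Finset (Fin k)}
    (hs : 2 ≤ s.card) (hf : ∀ x, f x = c + ∑ i ∈ s, x i) (C : Finset (Fin n → ZMod 2))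
    (hC : ClosedUnder f C) (hne : C.Nonempty) :
    ∃ (W : Submodule (ZMod 2) (Fin n → ZMod 2)) (c₀ : Fin n → ZMod 2),
      ∀ x, x ∈ C ↔ x + c₀ ∈ W := by
  classical
  obtain ⟨i, hi, i', hi', hii⟩ := one_lt_card.mp hs
  -- the minor with two special variables
  have hminor : ∀ x ∈ C, ∀ y ∈ C, ∀ z ∈ C,
      (fun j => c + (x j + y j + ((s.erase i).erase i').card • z j)) ∈ C := by
    intro x hx y hy z hz
    have h := hC (fun l => if l = i then x else if l = i' then y else z) (by
      intro l
      split_ifs <;> assumption)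
    convert h using 1
    funext j
    rw [hf, ← add_sum_erase s _ hi, ← add_sum_erase (s.erase i) _ (mem_erase.mpr ⟨hii.symm, hi'⟩)]
    rw [if_pos rfl, if_neg hii.symm, if_pos rfl]
    have : ∑ l ∈ (s.erase i).erase i', (if l = i then x else if l = i' then y else z) j
        = ∑ l ∈ (s.erase i).erase i', z j := by
      apply sum_congr rfl
      intro l hl
      rw [mem_erase, mem_erase] at hl
      rw [if_neg hl.2.1, if_neg hl.1]
    rw [this, sum_const, add_assoc (x j)]
  have hsum : ∀ x ∈ C, ∀ y ∈ C, ∀ z ∈ C, x + y + z ∈ C := by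
    intro x hx y hy z hz
    have h := hminor _ (hminor x hx y hy z hz) z hz z hz
    convert h using 1
    funext j
    rw [Pi.add_apply, Pi.add_apply]
    generalize ((s.erase i).erase i').card = r
    rw [nsmul_eq_mul]
    have hr : ∀ r' : ZMod 2, ∀ x y z c : ZMod 2,
        x + y + z = c + (c + (x + y + r' * z) + z + r' * z) := by decide
    exact hr _ _ _ _ _
  obtain ⟨c₀, hc₀⟩ := hne
  have hcc : c₀ + c₀ = 0 := by
    funext j
    exact CharTwo.add_self_eq_zero (c₀ j)
  refine ⟨{ carrier := {x | x + c₀ ∈ C}, add_mem' := ?_, zero_mem' := ?_, smul_mem' := ?_ }, c₀,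
    ?_⟩
  · intro x y hx hy
    have h := hsum _ hx _ hy _ hc₀
    have e : (x + c₀) + (y + c₀) + c₀ = x + y + c₀ := by
      rw [add_add_add_comm, hcc, add_zero]
    rw [e] at h
    exact h
  · show (0 : Fin n → ZMod 2) + c₀ ∈ C
    rw [zero_add]
    exact hc₀
  · intro a x hx
    rcases zmod2_cases a with rfl | rfl
    · show (0 : ZMod 2) • x + c₀ ∈ C
      rw [zero_smul, zero_add]
      exact hc₀
    · show (1 : ZMod 2) • x + c₀ ∈ C
      rw [one_smul]
      exact hx
  · intro x
    show x ∈ C ↔ x + c₀ + c₀ ∈ C
    rw [add_assoc, hcc, add_zero]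

end Q123.CC
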